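import Pool.Agent.H57.LC.Prd
import Pool.Agent.H92.DivBound

/-!
# [H57 LC HYP] Dirichlet's hyperbola method for the product of three sums (120-200 lines)

`hyp2`: let `x = √M`. `W_prod(M) = ∑_{N I ≤ x} ψ I * W'(M / N I) + ∑_{N J ≤ x} ψ' J * W(M / N J) - W(x) * W'(x)` (pairs with `N I * N J ≤ M`: `N I ≤ x` or `N J ≤ x`;
both conditions together imply `N I * N J ≤ M`; `G.B`, `Finset.sum_product`, `Finset.sum_filter`). Bounds: `‖W'(M / N I)‖ ≤ D (M / N I)^(1-δ)` and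
`∑_{N I ≤ x} (N I)^(δ-1) ≤ ∑_{m ≤ x} E m^(δ/2 + δ - 1) ≤ C E x^(3δ/2)`, so the first two sums are `≤ C E D M^(1-δ+3δ/4) = C E D M^(1-δ/4)`, the last is `≤ D^2 M^(1-δ)`.
`cnt_prod`: the number of `(I, J)` with `N I * N J = m` is at most `∑_{ab = m} E a^η E b^η = E^2 m^η d(m)`, and `d(m) ≤ C_η m^η` (divisor bound: if it is not in
Mathlib prove `d(m) ≤ C_η m^η` by `d(m) = ∏ (k_i + 1)`, `k + 1 ≤ C p^(η k)` with `C = 1` for `p ≥ 2^(1/η)`, or take it from `Pool.Agent.H9.CS.DivisorBound`-like files of the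
library, grep `card_divisors_le`).
`hyp3`: `hyp2` twice: first with `δ` (counts with exponent `δ/64 ≤ δ/2`), result `δ/4`; counts of the product with exponent `δ/32 ≤ (δ/4)/2`, result `δ/16`.
-/

set_option autoImplicit false

noncomputable section

namespace H57.LC

variable {𝓘 π 𝓘' π' : Type} [CommMonoid 𝓘] [CommMonoid 𝓘']

/-- the number of elements of norm `m` is at most `E m ^ η` -/
def GM.Cnt (G : GM 𝓘 π) (E η : ℝ) : Prop := ∀ m : ℕ, 1 ≤ m → ({I | G.N I = m}.ncard : ℝ) ≤ E * (m : ℝ) ^ η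

private theorem hyp_one (a : ℝ) (ha : 0 < a) (ha1 : a ≤ 1) (m : ℝ) (hm : 1 ≤ m) :
    m ^ (a - 1) ≤ (m ^ a - (m - 1) ^ a) / a := by
  have hm0 : 0 < m := by linarith
  rw [le_div_iff₀ ha]
  have h1 : (1 + (-(1 / m))) ^ a ≤ 1 + a * (-(1 / m)) := by
    apply rpow_one_add_le_one_add_mul_self _ ha.le ha1
    have : 1 / m ≤ 1 := by
      rw [div_le_one hm0]
      exact hm
    linarith
  have h2 : m - 1 = m * (1 + (-(1 / m))) := by
    field_simp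
    ring
  have h3 : 0 ≤ 1 + (-(1 / m)) := by
    have : 1 / m ≤ 1 := by
      rw [div_le_one hm0]
      exact hm
    linarith
  rw [h2, Real.mul_rpow hm0.le h3, Real.rpow_sub hm0, Real.rpow_one]
  have h4 : 0 < m ^ a := Real.rpow_pos_of_pos hm0 a
  have h5 := mul_le_mul_of_nonneg_left h1 h4.le
  have h6 : m ^ a / m * a = m ^ a * (a * (1 / m)) := by ring
  rw [h6]
  nlinarith

private theorem hyp_sum (a : ℝ) (ha : 0 < a) (ha1 : a ≤ 1) (k : ℕ) :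
    ∑ m ∈ Finset.Icc 1 k, (m : ℝ) ^ (a - 1) ≤ (k : ℝ) ^ a / a := by
  induction k with
  | zero => simp [Real.zero_rpow ha.ne']
  | succ k ih =>
    rw [Finset.sum_Icc_succ_top (by omega)]
    have h1 := hyp_one a ha ha1 ((k + 1 : ℕ) : ℝ) (by push_cast; linarith [Nat.cast_nonneg (α := ℝ) k])
    have h2 : ((k + 1 : ℕ) : ℝ) - 1 = k := by push_cast; ring
    rw [h2, sub_div] at h1
    linarith

private theorem hyp_sumB (G : GM 𝓘 π) (E δ x : ℝ) (hE : 0 ≤ E) (hδ : 0 < δ) (hδ1 : δ ≤ 1 / 4) (hx : 0 ≤ x)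
    (hG : G.Cnt E (δ / 2)) :
    ∑ I ∈ G.B x, (G.N I : ℝ) ^ (δ - 1) ≤ E * (x ^ (3 * δ / 2) / (3 * δ / 2)) := by
  classical
  have hmaps : ∀ I ∈ G.B x, G.N I ∈ Finset.Icc 1 ⌊x⌋₊ := by
    intro I hI
    rw [Finset.mem_Icc]
    exact ⟨G.pos I, Nat.le_floor (G.mem_B.1 hI)⟩
  rw [← Finset.sum_fiberwise_of_maps_to hmaps]
  have h1 : ∀ m ∈ Finset.Icc 1 ⌊x⌋₊, ∑ I ∈ (G.B x).filter (fun I => G.N I = m), (G.N I : ℝ) ^ (δ - 1) ≤
      E * (m : ℝ) ^ (3 * δ / 2 - 1) := by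
    intro m hm
    have hm1 : 1 ≤ m := (Finset.mem_Icc.1 hm).1
    have hm0 : (0 : ℝ) < m := by exact_mod_cast hm1
    have h2 : ∑ I ∈ (G.B x).filter (fun I => G.N I = m), (G.N I : ℝ) ^ (δ - 1) =
        (((G.B x).filter (fun I => G.N I = m)).card : ℝ) * (m : ℝ) ^ (δ - 1) := by
      rw [← nsmul_eq_mul, ← Finset.sum_const]
      refine Finset.sum_congr rfl fun I hI => ?_
      rw [(Finset.mem_filter.1 hI).2]
    have h3 : (((G.B x).filter (fun I => G.N I = m)).card : ℝ) ≤ E * (m : ℝ) ^ (δ / 2) := by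
      refine le_trans ?_ (hG m hm1)
      rw [Set.ncard_eq_toFinset_card _ (G.fin m)]
      have : (G.B x).filter (fun I => G.N I = m) ⊆ (G.fin m).toFinset := by
        intro I hI
        rw [Set.Finite.mem_toFinset]
        exact (Finset.mem_filter.1 hI).2
      exact_mod_cast Finset.card_le_card this
    rw [h2]
    refine (mul_le_mul_of_nonneg_right h3 (Real.rpow_nonneg hm0.le _)).trans (le_of_eq ?_)
    rw [mul_assoc, ← Real.rpow_add hm0]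
    congr 2
    ring
  refine (Finset.sum_le_sum h1).trans ?_
  rw [← Finset.mul_sum]
  refine mul_le_mul_of_nonneg_left ?_ hE
  refine (hyp_sum (3 * δ / 2) (by positivity) (by linarith) _).trans ?_
  refine div_le_div_of_nonneg_right ?_ (by positivity)
  exact Real.rpow_le_rpow (Nat.cast_nonneg _) (Nat.floor_le hx) (by positivity)

private theorem hyp_T (G : GM 𝓘 π) (ψ : 𝓘 →* ℂ) (F : ℝ → ℂ) (E D δ : ℝ) (hE : 0 ≤ E) (hD : 0 ≤ D) (hδ : 0 < δ)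
    (hδ1 : δ ≤ 1 / 4) (hψ : ∀ I, ‖ψ I‖ ≤ 1) (hG : G.Cnt E (δ / 2)) (hF : ∀ M : ℝ, 1 ≤ M → ‖F M‖ ≤ D * M ^ (1 - δ))
    (M : ℝ) (hM : 1 ≤ M) :
    ‖∑ I ∈ G.B (Real.sqrt M), ψ I * F (M / G.N I)‖ ≤ 2 / (3 * δ) * (E * D) * M ^ (1 - δ / 4) := by
  have hM0 : 0 < M := by linarith
  have hs1 : 1 ≤ Real.sqrt M := Real.one_le_sqrt.2 hM
  have hs0 : 0 < Real.sqrt M := by linarith
  have hsM : Real.sqrt M ≤ M := by
    have := Real.mul_self_sqrt hM0.le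
    nlinarith
  have h1 : ∀ I ∈ G.B (Real.sqrt M), ‖ψ I * F (M / G.N I)‖ ≤ D * M ^ (1 - δ) * (G.N I : ℝ) ^ (δ - 1) := by
    intro I hI
    have hN0 : (0 : ℝ) < G.N I := by exact_mod_cast (G.pos I)
    have hN1 : (G.N I : ℝ) ≤ Real.sqrt M := G.mem_B.1 hI
    have hMN : 1 ≤ M / G.N I := by
      rw [one_le_div hN0]
      exact hN1.trans hsM
    rw [norm_mul]
    calc ‖ψ I‖ * ‖F (M / G.N I)‖ ≤ 1 * (D * (M / G.N I) ^ (1 - δ)) :=
          mul_le_mul (hψ I) (hF _ hMN) (norm_nonneg _) zero_le_one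
      _ = D * M ^ (1 - δ) * (G.N I : ℝ) ^ (δ - 1) := by
          rw [one_mul, Real.div_rpow hM0.le hN0.le, mul_assoc, div_eq_mul_inv, ← Real.rpow_neg hN0.le]
          congr 3
          ring
  refine (norm_sum_le _ _).trans ((Finset.sum_le_sum h1).trans ?_)
  rw [← Finset.mul_sum]
  have h2 := hyp_sumB G E δ (Real.sqrt M) hE hδ hδ1 hs0.le hG
  have h3 : 0 ≤ D * M ^ (1 - δ) := mul_nonneg hD (Real.rpow_nonneg hM0.le _)
  refine (mul_le_mul_of_nonneg_left h2 h3).trans (le_of_eq ?_)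
  have h4 : Real.sqrt M ^ (3 * δ / 2) = M ^ (3 * δ / 4) := by
    rw [Real.sqrt_eq_rpow, ← Real.rpow_mul hM0.le]
    congr 1
    ring
  have h5 : M ^ (1 - δ / 4) = M ^ (1 - δ) * M ^ (3 * δ / 4) := by
    rw [← Real.rpow_add hM0]
    congr 1
    ring
  rw [h4, h5]
  field_simp

private theorem hyp_split (G : GM 𝓘 π) (G' : GM 𝓘' π') (ψ : 𝓘 →* ℂ) (ψ' : 𝓘' →* ℂ) (M : ℝ) (hM : 1 ≤ M) :
    (G.prod G').W (pch ψ ψ') M = ∑ I ∈ G.B (Real.sqrt M), ψ I * G'.W ψ' (M / G.N I) +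
      ∑ J ∈ G'.B (Real.sqrt M), ψ' J * G.W ψ (M / G'.N J) - G.W ψ (Real.sqrt M) * G'.W ψ' (Real.sqrt M) := by
  classical
  have hM0 : 0 < M := by linarith
  have hsq : Real.sqrt M * Real.sqrt M = M := Real.mul_self_sqrt hM0.le
  have hs0 : 0 ≤ Real.sqrt M := Real.sqrt_nonneg M
  obtain ⟨S, hS⟩ : ∃ S, S = (G.prod G').B M := ⟨_, rfl⟩
  have hmem : ∀ p : 𝓘 × 𝓘', p ∈ S ↔ (G.N p.1 : ℝ) * (G'.N p.2 : ℝ) ≤ M := by
    intro p
    rw [hS, GM.mem_B]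
    have : (G.prod G').N p = G.N p.1 * G'.N p.2 := rfl
    rw [this]
    push_cast
    rfl
  have hN : ∀ I, (0 : ℝ) < G.N I := fun I => by exact_mod_cast (G.pos I)
  have hN' : ∀ J, (0 : ℝ) < G'.N J := fun J => by exact_mod_cast (G'.pos J)
  have h1 : ∑ p ∈ S.filter (fun p => (G.N p.1 : ℝ) ≤ Real.sqrt M), pch ψ ψ' p =
      ∑ I ∈ G.B (Real.sqrt M), ψ I * G'.W ψ' (M / G.N I) := by
    rw [Finset.sum_finset_product _ (G.B (Real.sqrt M)) (fun I => G'.B (M / G.N I))]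
    · refine Finset.sum_congr rfl fun I _ => ?_
      unfold GM.W
      rw [Finset.mul_sum]
      rfl
    · intro p
      rw [Finset.mem_filter, hmem, GM.mem_B, GM.mem_B, le_div_iff₀ (hN _), mul_comm (G'.N p.2 : ℝ)]
      tauto
  have h2 : ∑ p ∈ S.filter (fun p => (G'.N p.2 : ℝ) ≤ Real.sqrt M), pch ψ ψ' p =
      ∑ J ∈ G'.B (Real.sqrt M), ψ' J * G.W ψ (M / G'.N J) := by
    rw [Finset.sum_finset_product_right _ (G'.B (Real.sqrt M)) (fun J => G.B (M / G'.N J))]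
    · refine Finset.sum_congr rfl fun J _ => ?_
      unfold GM.W
      rw [Finset.mul_sum]
      refine Finset.sum_congr rfl fun I _ => ?_
      rw [pch_apply]
      ring
    · intro p
      rw [Finset.mem_filter, hmem, GM.mem_B, GM.mem_B, le_div_iff₀ (hN' _)]
      tauto
  have h3 : ∑ p ∈ S.filter (fun p => (G.N p.1 : ℝ) ≤ Real.sqrt M) ∩
        S.filter (fun p => (G'.N p.2 : ℝ) ≤ Real.sqrt M), pch ψ ψ' p =
      G.W ψ (Real.sqrt M) * G'.W ψ' (Real.sqrt M) := by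
    rw [Finset.sum_finset_product _ (G.B (Real.sqrt M)) (fun _ => G'.B (Real.sqrt M))]
    · unfold GM.W
      rw [Finset.sum_mul_sum]
      rfl
    · intro p
      rw [Finset.mem_inter, Finset.mem_filter, Finset.mem_filter, hmem, GM.mem_B, GM.mem_B]
      constructor
      · rintro ⟨⟨-, h⟩, -, h'⟩
        exact ⟨h, h'⟩
      · rintro ⟨h, h'⟩
        have : (G.N p.1 : ℝ) * (G'.N p.2 : ℝ) ≤ M := by
          calc (G.N p.1 : ℝ) * (G'.N p.2 : ℝ) ≤ Real.sqrt M * Real.sqrt M :=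
                mul_le_mul h h' (hN' _).le hs0
            _ = M := hsq
        exact ⟨⟨this, h⟩, this, h'⟩
  have h4 : S = S.filter (fun p => (G.N p.1 : ℝ) ≤ Real.sqrt M) ∪
      S.filter (fun p => (G'.N p.2 : ℝ) ≤ Real.sqrt M) := by
    ext p
    rw [Finset.mem_union, Finset.mem_filter, Finset.mem_filter]
    constructor
    · intro hp
      by_cases h : (G.N p.1 : ℝ) ≤ Real.sqrt M
      · exact Or.inl ⟨hp, h⟩
      · by_cases h' : (G'.N p.2 : ℝ) ≤ Real.sqrt M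
        · exact Or.inr ⟨hp, h'⟩
        · exfalso
          have hp' := (hmem p).1 hp
          push Not at h h'
          have : Real.sqrt M * Real.sqrt M < (G.N p.1 : ℝ) * (G'.N p.2 : ℝ) :=
            mul_lt_mul'' h h' hs0 hs0
          linarith
    · rintro (h | h)
      · exact h.1
      · exact h.1
  have h5 := Finset.sum_union_inter (s₁ := S.filter (fun p => (G.N p.1 : ℝ) ≤ Real.sqrt M))
    (s₂ := S.filter (fun p => (G'.N p.2 : ℝ) ≤ Real.sqrt M)) (f := fun p => pch ψ ψ' p)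
  rw [← h4, h1, h2, h3] at h5
  have h6 : (G.prod G').W (pch ψ ψ') M = ∑ p ∈ S, pch ψ ψ' p := by
    rw [hS]
    rfl
  rw [h6, ← h5]
  ring

theorem hyp2 (δ : ℝ) (hδ : 0 < δ) (hδ1 : δ ≤ 1 / 4) : ∃ C : ℝ, 1 ≤ C ∧ ∀ (𝓘 π 𝓘' π' : Type) [CommMonoid 𝓘] [CommMonoid 𝓘']
    (G : GM 𝓘 π) (G' : GM 𝓘' π') (ψ : 𝓘 →* ℂ) (ψ' : 𝓘' →* ℂ) (E D : ℝ), 1 ≤ E → 1 ≤ D → (∀ I, ‖ψ I‖ ≤ 1) →
    (∀ I, ‖ψ' I‖ ≤ 1) → G.Cnt E (δ / 2) → G'.Cnt E (δ / 2) → (∀ M : ℝ, 1 ≤ M → ‖G.W ψ M‖ ≤ D * M ^ (1 - δ)) →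
    (∀ M : ℝ, 1 ≤ M → ‖G'.W ψ' M‖ ≤ D * M ^ (1 - δ)) →
    ∀ M : ℝ, 1 ≤ M → ‖(G.prod G').W (pch ψ ψ') M‖ ≤ C * (E * D ^ 2) * M ^ (1 - δ / 4) := by
  refine ⟨4 / (3 * δ) + 1, ?_, ?_⟩
  · have : 0 ≤ 4 / (3 * δ) := by positivity
    linarith
  intro 𝓘 π 𝓘' π' _ _ G G' ψ ψ' E D hE hD hψ hψ' hG hG' hW hW' M hM
  have hM0 : 0 < M := by linarith
  have hs1 : 1 ≤ Real.sqrt M := Real.one_le_sqrt.2 hM
  have hs0 : 0 < Real.sqrt M := by linarith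
  have hE0 : 0 ≤ E := by linarith
  have hD0 : 0 ≤ D := by linarith
  have h1 := hyp_T G ψ (G'.W ψ') E D δ hE0 hD0 hδ hδ1 hψ hG hW' M hM
  have h2 := hyp_T G' ψ' (G.W ψ) E D δ hE0 hD0 hδ hδ1 hψ' hG' hW M hM
  have h3 : ‖G.W ψ (Real.sqrt M) * G'.W ψ' (Real.sqrt M)‖ ≤ D ^ 2 * M ^ (1 - δ / 4) := by
    rw [norm_mul]
    have h4 : Real.sqrt M ^ (1 - δ) * Real.sqrt M ^ (1 - δ) = M ^ (1 - δ) := by
      rw [← Real.mul_rpow hs0.le hs0.le, Real.mul_self_sqrt hM0.le]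
    calc ‖G.W ψ (Real.sqrt M)‖ * ‖G'.W ψ' (Real.sqrt M)‖
        ≤ (D * Real.sqrt M ^ (1 - δ)) * (D * Real.sqrt M ^ (1 - δ)) :=
          mul_le_mul (hW _ hs1) (hW' _ hs1) (norm_nonneg _) (mul_nonneg hD0 (Real.rpow_nonneg hs0.le _))
      _ = D ^ 2 * M ^ (1 - δ) := by
          rw [← h4]
          ring
      _ ≤ D ^ 2 * M ^ (1 - δ / 4) :=
          mul_le_mul_of_nonneg_left (Real.rpow_le_rpow_of_exponent_le hM (by linarith)) (by positivity)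
  rw [hyp_split G G' ψ ψ' M hM]
  have hP : 0 < M ^ (1 - δ / 4) := Real.rpow_pos_of_pos hM0 _
  refine (norm_sub_le _ _).trans ((add_le_add (norm_add_le _ _) le_rfl).trans ?_)
  have hk : 0 < 2 / (3 * δ) := by positivity
  have hk2 : 4 / (3 * δ) = 2 * (2 / (3 * δ)) := by ring
  have hED : E * D ≤ E * D ^ 2 := by
    have : D ≤ D ^ 2 := by nlinarith
    exact mul_le_mul_of_nonneg_left this hE0
  have hDD : D ^ 2 ≤ E * D ^ 2 := by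
    have : 0 ≤ D ^ 2 := by positivity
    nlinarith
  have h7 : 2 / (3 * δ) * (E * D) * M ^ (1 - δ / 4) ≤ 2 / (3 * δ) * (E * D ^ 2) * M ^ (1 - δ / 4) :=
    mul_le_mul_of_nonneg_right (mul_le_mul_of_nonneg_left hED hk.le) hP.le
  have h8 : D ^ 2 * M ^ (1 - δ / 4) ≤ (E * D ^ 2) * M ^ (1 - δ / 4) := mul_le_mul_of_nonneg_right hDD hP.le
  rw [hk2]
  nlinarith

theorem cnt_prod (η : ℝ) (hη : 0 < η) : ∃ C : ℝ, 1 ≤ C ∧ ∀ (𝓘 π 𝓘' π' : Type) [CommMonoid 𝓘] [CommMonoid 𝓘']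
    (G : GM 𝓘 π) (G' : GM 𝓘' π') (E : ℝ), 1 ≤ E → G.Cnt E η → G'.Cnt E η → (G.prod G').Cnt (C * E ^ 2) (2 * η) := by
  obtain ⟨C, hC, hdiv⟩ := Pool.Agent.H5.W.divisor_bound η hη
  refine ⟨max 1 C, le_max_left _ _, ?_⟩
  intro 𝓘 π 𝓘' π' _ _ G G' E hE hG hG' m hm
  classical
  have hm0 : (0 : ℝ) < m := by exact_mod_cast hm
  have hE0 : 0 ≤ E := by linarith
  let T : Finset (𝓘 × 𝓘') := m.divisors.biUnion fun a => (G.fin a).toFinset ×ˢ (G'.fin (m / a)).toFinset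
  have h1 : {I | (G.prod G').N I = m} ⊆ (T : Set (𝓘 × 𝓘')) := by
    intro p hp
    have hp' : G.N p.1 * G'.N p.2 = m := hp
    rw [Finset.mem_coe, Finset.mem_biUnion]
    refine ⟨G.N p.1, ?_, ?_⟩
    · rw [Nat.mem_divisors]
      exact ⟨⟨_, hp'.symm⟩, by omega⟩
    · rw [Finset.mem_product, Set.Finite.mem_toFinset, Set.Finite.mem_toFinset]
      refine ⟨rfl, ?_⟩
      show G'.N p.2 = m / G.N p.1
      rw [← hp', Nat.mul_div_cancel_left _ (G.pos p.1)]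
  have h2 : ({I | (G.prod G').N I = m}.ncard : ℝ) ≤ (T.card : ℝ) := by
    have := Set.ncard_le_ncard h1 (Finset.finite_toSet _)
    rw [Set.ncard_coe_finset] at this
    exact_mod_cast this
  have h3 : (T.card : ℝ) ≤ ∑ a ∈ m.divisors, (((G.fin a).toFinset.card : ℝ) * ((G'.fin (m / a)).toFinset.card : ℝ)) := by
    have := Finset.card_biUnion_le (s := m.divisors)
      (t := fun a => (G.fin a).toFinset ×ˢ (G'.fin (m / a)).toFinset)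
    simp only [Finset.card_product] at this
    exact_mod_cast this
  have h4 : ∀ a ∈ m.divisors, ((G.fin a).toFinset.card : ℝ) * ((G'.fin (m / a)).toFinset.card : ℝ) ≤
      E ^ 2 * (m : ℝ) ^ η := by
    intro a ha
    obtain ⟨⟨b, hb⟩, hm'⟩ := Nat.mem_divisors.1 ha
    have ha1 : 1 ≤ a := Nat.pos_of_ne_zero fun h => hm' (by rw [hb, h, zero_mul])
    have hb1 : 1 ≤ b := Nat.pos_of_ne_zero fun h => hm' (by rw [hb, h, mul_zero])
    have hmb : m / a = b := by rw [hb, Nat.mul_div_cancel_left _ ha1]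
    rw [hmb, ← Set.ncard_eq_toFinset_card _ (G.fin a), ← Set.ncard_eq_toFinset_card _ (G'.fin b)]
    have ha0 : (0 : ℝ) ≤ a := Nat.cast_nonneg _
    have hb0 : (0 : ℝ) ≤ b := Nat.cast_nonneg _
    calc ({I | G.N I = a}.ncard : ℝ) * ({I | G'.N I = b}.ncard : ℝ)
        ≤ (E * (a : ℝ) ^ η) * (E * (b : ℝ) ^ η) :=
          mul_le_mul (hG a ha1) (hG' b hb1) (Nat.cast_nonneg _) (mul_nonneg hE0 (Real.rpow_nonneg ha0 _))
      _ = E ^ 2 * (m : ℝ) ^ η := by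
          rw [hb]
          push_cast
          rw [Real.mul_rpow ha0 hb0]
          ring
  refine h2.trans (h3.trans ((Finset.sum_le_sum h4).trans ?_))
  rw [Finset.sum_const, nsmul_eq_mul]
  have h5 : (m : ℝ) ^ (2 * η) = (m : ℝ) ^ η * (m : ℝ) ^ η := by
    rw [← Real.rpow_add hm0]
    congr 1
    ring
  have h6 : 0 ≤ E ^ 2 * (m : ℝ) ^ η := by positivity
  calc (m.divisors.card : ℝ) * (E ^ 2 * (m : ℝ) ^ η) ≤ (max 1 C * (m : ℝ) ^ η) * (E ^ 2 * (m : ℝ) ^ η) :=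
        mul_le_mul_of_nonneg_right ((hdiv m hm).trans
          (mul_le_mul_of_nonneg_right (le_max_right _ _) (Real.rpow_nonneg hm0.le _))) h6
    _ = max 1 C * E ^ 2 * (m : ℝ) ^ (2 * η) := by
        rw [h5]
        ring

theorem hyp3 (δ : ℝ) (hδ : 0 < δ) (hδ1 : δ ≤ 1 / 4) : ∃ (C : ℝ) (A : ℕ), 1 ≤ C ∧ ∀ (𝓘 π : Type) [CommMonoid 𝓘]
    (G : GM 𝓘 π) (ψ₀ ψ₁ ψ₂ : 𝓘 →* ℂ) (E D : ℝ), 1 ≤ E → 1 ≤ D → (∀ I, ‖ψ₀ I‖ ≤ 1) →
    (∀ I, ‖ψ₁ I‖ ≤ 1) → (∀ I, ‖ψ₂ I‖ ≤ 1) → G.Cnt E (δ / 64) → (∀ M : ℝ, 1 ≤ M → ‖G.W ψ₀ M‖ ≤ D * M ^ (1 - δ)) →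
    (∀ M : ℝ, 1 ≤ M → ‖G.W ψ₁ M‖ ≤ D * M ^ (1 - δ)) → (∀ M : ℝ, 1 ≤ M → ‖G.W ψ₂ M‖ ≤ D * M ^ (1 - δ)) →
    ∀ M : ℝ, 1 ≤ M → ‖((G.prod G).prod G).W (pch (pch ψ₀ ψ₁) ψ₂) M‖ ≤ C * (E * D) ^ A * M ^ (1 - δ / 16) := by
  obtain ⟨C₁, hC₁, h1⟩ := hyp2 δ hδ hδ1
  obtain ⟨C₂, hC₂, h2⟩ := hyp2 (δ / 4) (by positivity) (by linarith)
  obtain ⟨C₃, hC₃, h3⟩ := cnt_prod (δ / 64) (by positivity)
  refine ⟨C₂ * (C₃ * C₁ ^ 2), 6, ?_, ?_⟩
  · have h4 : 1 ≤ C₁ ^ 2 := one_le_pow₀ hC₁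
    have h5 : 1 ≤ C₃ * C₁ ^ 2 := one_le_mul_of_one_le_of_one_le hC₃ h4
    exact one_le_mul_of_one_le_of_one_le hC₂ h5
  intro 𝓘 π _ G ψ₀ ψ₁ ψ₂ E D hE hD hψ₀ hψ₁ hψ₂ hG hW₀ hW₁ hW₂ M hM
  have hE0 : 0 < E := by linarith
  have hD0 : 0 < D := by linarith
  have hmono : ∀ (E' η η' : ℝ), E ≤ E' → δ / 64 = η → η ≤ η' → G.Cnt E' η' := by
    intro E' η η' hEE h4 h5 m hm
    have hm1 : (1 : ℝ) ≤ m := by exact_mod_cast hm
    refine (hG m hm).trans ?_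
    refine mul_le_mul hEE ?_ (Real.rpow_nonneg (by linarith) _) (by linarith)
    exact Real.rpow_le_rpow_of_exponent_le hm1 (by linarith)
  have hG2 : G.Cnt E (δ / 2) := hmono E (δ / 64) (δ / 2) le_rfl rfl (by linarith)
  have hp1 : ∀ I, ‖pch ψ₀ ψ₁ I‖ ≤ 1 := by
    intro I
    have : pch ψ₀ ψ₁ I = ψ₀ I.1 * ψ₁ I.2 := rfl
    rw [this, norm_mul]
    exact mul_le_one₀ (hψ₀ _) (norm_nonneg _) (hψ₁ _)
  have hA := h1 𝓘 π 𝓘 π G G ψ₀ ψ₁ E D hE hD hψ₀ hψ₁ hG2 hG2 hW₀ hW₁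
  have hcnt := h3 𝓘 π 𝓘 π G G E hE hG hG
  obtain ⟨E', hE'⟩ : ∃ E', E' = C₃ * E ^ 2 := ⟨_, rfl⟩
  obtain ⟨D', hD'⟩ : ∃ D', D' = C₁ * (E * D ^ 2) := ⟨_, rfl⟩
  have hEE : E ≤ E' := by
    rw [hE']
    have h4 : E ≤ E ^ 2 := by nlinarith
    nlinarith
  have hDD : D ≤ D' := by
    rw [hD']
    have h4 : D ≤ D ^ 2 := by nlinarith
    have h5 : D ^ 2 ≤ E * D ^ 2 := by
      have : 0 ≤ D ^ 2 := by positivity
      nlinarith
    have h6 : E * D ^ 2 ≤ C₁ * (E * D ^ 2) := by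
      have : 0 ≤ E * D ^ 2 := by positivity
      nlinarith
    linarith
  have hcnt' : (G.prod G).Cnt E' (δ / 4 / 2) := by
    intro m hm
    have hm1 : (1 : ℝ) ≤ m := by exact_mod_cast hm
    refine (hcnt m hm).trans ?_
    rw [hE']
    refine mul_le_mul_of_nonneg_left ?_ (by positivity)
    exact Real.rpow_le_rpow_of_exponent_le hm1 (by linarith)
  have hB := h2 (𝓘 × 𝓘) (π ⊕ π) 𝓘 π (G.prod G) G (pch ψ₀ ψ₁) ψ₂ E' D' (by linarith) (by linarith) hp1 hψ₂ hcnt'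
    (hmono E' (δ / 64) (δ / 4 / 2) hEE rfl (by linarith)) ?_ ?_ M hM
  · refine hB.trans ?_
    have h4 : δ / 4 / 4 = δ / 16 := by ring
    rw [h4]
    refine mul_le_mul_of_nonneg_right ?_ (Real.rpow_nonneg (by linarith) _)
    have h5 : C₂ * (E' * D' ^ 2) = C₂ * (C₃ * C₁ ^ 2) * (E ^ 4 * D ^ 4) := by
      rw [hE', hD']
      ring
    rw [h5]
    refine mul_le_mul_of_nonneg_left ?_ (by positivity)
    have h6 : E ^ 4 * D ^ 4 = (E * D) ^ 4 := by ring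
    rw [h6]
    exact pow_le_pow_right₀ (one_le_mul_of_one_le_of_one_le hE hD) (by norm_num)
  · intro M hM
    rw [hD']
    exact hA M hM
  · intro M hM
    refine (hW₂ M hM).trans ?_
    refine mul_le_mul hDD ?_ (Real.rpow_nonneg (by linarith) _) (by linarith)
    exact Real.rpow_le_rpow_of_exponent_le hM (by linarith)

end H57.LC
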