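import Pool.Agent.H57.LC.Gm
import Pool.Agent.H57.LI.PrK

/-!
# [H57 LC IDG] The monoid of the nonzero ideals of a number field
-/

set_option autoImplicit false

open scoped NumberField nonZeroDivisors
open NumberField H63.MA H36.QA H57.LI

noncomputable section

namespace H57.LC

variable (F : Type) [Field F] [NumberField F]

theorem idg_ne (I : (Ideal (𝓞 F))⁰) : (I : Ideal (𝓞 F)) ≠ ⊥ := by
  have h := nonZeroDivisors.coe_ne_zero I
  rwa [Ideal.zero_eq_bot] at h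

theorem idg_pl (v : Pl F) : v.asIdeal ∈ (Ideal (𝓞 F))⁰ :=
  mem_nonZeroDivisors_of_ne_zero (by rw [Ideal.zero_eq_bot]; exact v.ne_bot)

/-- the nonzero ideals of `F` -/
def idG : GM (Ideal (𝓞 F))⁰ (Pl F) where
  N := (Ideal.absNorm : Ideal (𝓞 F) →*₀ ℕ).toMonoidHom.comp (Submonoid.subtype _)
  pr := fun v => ⟨v.asIdeal, idg_pl F v⟩
  fin := by
    intro m
    have h := (Ideal.finite_setOfPred_absNorm_le (S := 𝓞 F) m)
    refine Set.Finite.of_finite_image (f := fun I : (Ideal (𝓞 F))⁰ => (I : Ideal (𝓞 F))) (h.subset ?_)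
      (fun a _ b _ hab => Subtype.ext hab)
    rintro _ ⟨I, hI, rfl⟩
    exact le_of_eq hI
  two := by
    intro v
    exact prk_two v
  pos := by
    intro I
    have h : Ideal.absNorm (I : Ideal (𝓞 F)) ≠ 0 := by
      rw [Ne, Ideal.absNorm_eq_zero_iff]
      exact idg_ne F I
    exact Nat.one_le_iff_ne_zero.2 h
  canc := by
    intro v I J h
    apply Subtype.ext
    have h1 : v.asIdeal * (I : Ideal (𝓞 F)) = v.asIdeal * (J : Ideal (𝓞 F)) := congrArg Subtype.val h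
    exact mul_left_cancel₀ (by rw [Ideal.zero_eq_bot]; exact v.ne_bot) h1
  dvd := by
    intro v w I hvw h
    obtain ⟨J, hJ⟩ := h
    have h1 : w.asIdeal * (I : Ideal (𝓞 F)) = v.asIdeal * (J : Ideal (𝓞 F)) := congrArg Subtype.val hJ
    have h2 : v.asIdeal ∣ w.asIdeal * (I : Ideal (𝓞 F)) := ⟨_, h1⟩
    rcases v.prime.dvd_or_dvd h2 with h3 | h3
    · exfalso
      apply hvw
      apply IsDedekindDomain.HeightOneSpectrum.ext
      have h4 : w.asIdeal ≤ v.asIdeal := Ideal.dvd_iff_le.1 h3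
      exact (w.isMaximal.eq_of_le v.isPrime.ne_top h4).symm
    · obtain ⟨L, hL⟩ := h3
      have hL0 : L ∈ (Ideal (𝓞 F))⁰ := by
        apply mem_nonZeroDivisors_of_ne_zero
        rintro rfl
        rw [mul_zero] at hL
        exact idg_ne F I (by rw [hL, Ideal.zero_eq_bot])
      exact ⟨⟨L, hL0⟩, Subtype.ext hL⟩
  ex := by
    intro I hI
    have h1 : (I : Ideal (𝓞 F)) ≠ ⊤ := by
      intro h
      apply hI
      apply Subtype.ext
      rw [h, Submonoid.coe_one, Ideal.one_eq_top]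
    obtain ⟨P, hP, hIP⟩ := Ideal.exists_le_maximal _ h1
    have hP0 : P ≠ ⊥ := by
      rintro rfl
      exact idg_ne F I (le_bot_iff.1 hIP)
    refine ⟨⟨P, hP.isPrime, hP0⟩, ?_⟩
    obtain ⟨L, hL⟩ := Ideal.dvd_iff_le.2 hIP
    have hL0 : L ∈ (Ideal (𝓞 F))⁰ := by
      apply mem_nonZeroDivisors_of_ne_zero
      rintro rfl
      rw [mul_zero] at hL
      exact idg_ne F I (by rw [hL, Ideal.zero_eq_bot])
    exact ⟨⟨L, hL0⟩, Subtype.ext hL⟩

variable {F}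

theorem idG_N (I : (Ideal (𝓞 F))⁰) : (idG F).N I = Ideal.absNorm (I : Ideal (𝓞 F)) := rfl

theorem idG_pr (v : Pl F) : (((idG F).pr v : (Ideal (𝓞 F))⁰) : Ideal (𝓞 F)) = v.asIdeal := rfl

theorem idG_Npr (v : Pl F) : (idG F).N ((idG F).pr v) = nm v := rfl

/-- the character on the nonzero ideals -/
def rch {𝔣 : Ideal (𝓞 F)} (χ : RC F 𝔣) : (Ideal (𝓞 F))⁰ →* ℂ := χ.χ.toMonoidHom.comp (Submonoid.subtype _)

theorem rch_apply {𝔣 : Ideal (𝓞 F)} (χ : RC F 𝔣) (I : (Ideal (𝓞 F))⁰) : rch χ I = χ.χ (I : Ideal (𝓞 F)) := rfl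

theorem rch_norm {𝔣 : Ideal (𝓞 F)} (χ : RC F 𝔣) (I : (Ideal (𝓞 F))⁰) : ‖rch χ I‖ ≤ 1 := norm_rc χ _

theorem idG_W {𝔣 : Ideal (𝓞 F)} (χ : RC F 𝔣) (M : ℝ) (hM : 0 ≤ M) : (idG F).W (rch χ) M = ∑ I ∈ IN F M, χ.χ I := by
  unfold GM.W
  refine Finset.sum_bij (fun I _ => (I : Ideal (𝓞 F))) ?_ ?_ ?_ ?_
  · intro I hI
    exact (mem_IN hM).2 ⟨(idG F).mem_B.1 hI, idg_ne F I⟩
  · intro I _ J _ h
    exact Subtype.ext h
  · intro I hI
    obtain ⟨h1, h2⟩ := (mem_IN hM).1 hI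
    refine ⟨⟨I, mem_nonZeroDivisors_of_ne_zero (by rw [Ideal.zero_eq_bot]; exact h2)⟩, (idG F).mem_B.2 h1, rfl⟩
  · intro I _
    rfl

end H57.LC
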