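import Pool.Agent.H57.LC.Cmp
import Pool.Agent.H57.LC.Hyp
import Pool.Agent.H57.LC.IdG
import Pool.Agent.H1.LS4.Dvb
import Pool.Agent.H63.MA.KumB

/-!
# [H57 LC ASM] The sum over the squarefree ideals of `K` from one or three ray class characters of an extension
-/

set_option autoImplicit false

open scoped NumberField nonZeroDivisors
open NumberField H63.MA H36.QA H57.LI

noncomputable section

namespace H57.LC

variable {K E : Type} [Field K] [NumberField K] [Field E] [NumberField E] [Algebra K E]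

variable (K) in
/-- the prime below -/
def bel (w : Pl E) : Pl K := (exists_below (K := K) w).choose

theorem bel_over (w : Pl E) : Over w (bel K w) := (exists_below (K := K) w).choose_spec

theorem bel_iff {w : Pl E} {l : Pl K} : bel K w = l ↔ Over w l :=
  ⟨fun h => h ▸ bel_over w, fun h => below_unique (bel_over w) h⟩

variable (K) in
/-- the residue degree -/
def rdg (w : Pl E) : ℕ := (nm_over (bel_over (K := K) w)).choose

theorem rdg_spec (w : Pl E) : 1 ≤ rdg K w ∧ nm w = nm (bel K w) ^ rdg K w := (nm_over (bel_over (K := K) w)).choose_spec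

theorem rdg_one {w : Pl E} {l : Pl K} (h : Over w l) : rdg K w = 1 ↔ nm w = nm l := by
  have h1 := rdg_spec (K := K) w
  rw [bel_iff.2 h] at h1
  constructor
  · intro h2
    rw [h1.2, h2, pow_one]
  · intro h2
    have h3 : nm l ^ rdg K w = nm l ^ 1 := by rw [← h1.2, h2, pow_one]
    exact Nat.pow_right_injective (prk_two l) h3

theorem bel_set (l : Pl K) : {w : Pl E | bel K w = l ∧ rdg K w = 1} = {w : Pl E | Over w l ∧ nm w = nm l} := by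
  ext w
  simp only [Set.mem_setOf_eq]
  constructor
  · rintro ⟨h1, h2⟩
    have h3 := bel_iff.1 h1
    exact ⟨h3, (rdg_one h3).1 h2⟩
  · rintro ⟨h1, h2⟩
    exact ⟨bel_iff.2 h1, (rdg_one h1).2 h2⟩

theorem bel_card (l : Pl K) : {w : Pl E | bel K w = l}.Finite ∧ {w : Pl E | bel K w = l}.ncard ≤ Module.finrank ℚ E := by
  have h1 : {w : Pl E | bel K w = l} = {w : Pl E | Over w l} := by
    ext w
    exact bel_iff
  rw [h1]
  have hfin : {w : Pl E | Over w l}.Finite := over_finite l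
  refine ⟨hfin, ?_⟩
  rw [Set.ncard_eq_toFinset_card _ hfin]
  refine prk_fibre (nm l).minFac _ fun v hv => ?_
  have hv' : Over v l := (Set.Finite.mem_toFinset hfin).1 hv
  obtain ⟨f, hf, h2⟩ := nm_over hv'
  rw [h2, Nat.pow_minFac (by omega)]

theorem idG_cnt (n : ℕ) (hn : 0 < n) (η : ℝ) (hη : 0 < η) : ∃ C : ℝ, 1 ≤ C ∧ ∀ (F : Type) [Field F] [NumberField F],
    Module.finrank ℚ F = n → (idG F).Cnt C η := by
  classical
  obtain ⟨C, hC, h⟩ := H1.LS4.dvb n hn η hη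
  refine ⟨C, hC, fun F _ _ hF m hm => ?_⟩
  have hfin := (idG F).fin m
  rw [Set.ncard_eq_toFinset_card _ hfin]
  have h1 := h F hF m hm (hfin.toFinset.image fun I : (Ideal (𝓞 F))⁰ => (I : Ideal (𝓞 F))) (by
    intro I hI
    obtain ⟨J, hJ, rfl⟩ := Finset.mem_image.1 hI
    exact (Set.Finite.mem_toFinset hfin).1 hJ)
  rwa [Finset.card_image_of_injective _ Subtype.val_injective] at h1

/-- one character -/
theorem asm1 (K : Type) [Field K] [NumberField K] (n : ℕ) (hics : ICS n) : ∃ (C : ℝ) (A : ℕ) (δ : ℝ), 1 ≤ C ∧ 0 < δ ∧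
    δ ≤ 1 / 4 ∧ ∀ (E : Type) [Field E] [NumberField E] [Algebra K E], TC E n → ∀ 𝔣 : Ideal (𝓞 E), 𝔣 ≠ ⊥ →
      ∀ ψ : RC E 𝔣, ψ.Non → ∀ g : Pl K → ℝ, (∀ l, |g l| ≤ 9) → ∀ Bd : Finset (Pl K),
      (∀ l, l ∉ Bd → ∑ᶠ w ∈ {w : Pl E | Over w l ∧ nm w = nm l}, ψ.χ w.asIdeal = (g l : ℂ)) → ∀ Y : ℝ, 1 ≤ Y →
      |∑ s ∈ (prK K).SF Y, pd g s| ≤ C * C ^ Bd.card * (dd E * Ideal.absNorm 𝔣) ^ A * Y ^ (1 - δ) := by
  obtain ⟨C₁, A, δ, hC₁, hδ, hδ1, h1⟩ := hics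
  obtain ⟨C₂, c, hC₂, hc, h2⟩ := cmp (prK K) n
  refine ⟨max (C₁ * C₂) c, A, δ, le_trans hc (le_max_right _ _), hδ, hδ1, ?_⟩
  intro E _ _ _ hE 𝔣 h𝔣 ψ hψ g hg Bd hBd Y hY
  have hdd : 1 ≤ dd E := one_le_dd E
  have hN : (1 : ℝ) ≤ Ideal.absNorm 𝔣 := by
    have h : Ideal.absNorm 𝔣 ≠ 0 := fun h => h𝔣 (Ideal.absNorm_eq_zero_iff.1 h)
    exact_mod_cast Nat.one_le_iff_ne_zero.2 h
  have h3 := h2 (Ideal (𝓞 E))⁰ (Pl E) (idG E) (rch ψ) (rch_norm ψ) (bel K) (rdg K) (fun q => (rdg_spec q).1)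
    (fun q => by rw [prK_N, idG_Npr]; exact (rdg_spec q).2) (fun l => by
      have h := bel_card (K := K) (E := E) l
      rw [hE.2] at h
      exact h) g hg Bd (fun l hl => by
      rw [bel_set]
      exact hBd l hl) (C₁ * (dd E * Ideal.absNorm 𝔣) ^ A) δ hδ hδ1 (fun M hM => by
      rw [idG_W ψ M (by linarith)]
      exact h1 E hE 𝔣 h𝔣 ψ hψ M hM) Y hY
  refine h3.trans ?_
  have h5 : 0 ≤ (dd E * Ideal.absNorm 𝔣) ^ A := by positivity
  have h6 : 0 ≤ Y ^ (1 - δ) := Real.rpow_nonneg (by linarith) _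
  have h7 : C₁ * C₂ * c ^ Bd.card ≤ max (C₁ * C₂) c * max (C₁ * C₂) c ^ Bd.card :=
    mul_le_mul (le_max_left _ _) (pow_le_pow_left₀ (by linarith) (le_max_right _ _) _) (by positivity)
      (le_trans (by linarith) (le_max_right _ _))
  calc C₂ * c ^ Bd.card * (C₁ * (dd E * Ideal.absNorm 𝔣) ^ A) * Y ^ (1 - δ)
      = (C₁ * C₂ * c ^ Bd.card) * (dd E * Ideal.absNorm 𝔣) ^ A * Y ^ (1 - δ) := by ring
    _ ≤ _ := mul_le_mul_of_nonneg_right (mul_le_mul_of_nonneg_right h7 h5) h6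

/-- three characters of the same field -/
theorem asm3 (K : Type) [Field K] [NumberField K] (n : ℕ) (hn : 0 < n) (hics : ICS n) : ∃ (C : ℝ) (A : ℕ) (δ : ℝ), 1 ≤ C ∧ 0 < δ ∧
    δ ≤ 1 / 4 ∧ ∀ (E : Type) [Field E] [NumberField E] [Algebra K E], TC E n → ∀ 𝔣 : Ideal (𝓞 E), 𝔣 ≠ ⊥ →
      ∀ ψ₀ ψ₁ ψ₂ : RC E 𝔣, ψ₀.Non → ψ₁.Non → ψ₂.Non → ∀ g : Pl K → ℝ, (∀ l, |g l| ≤ 9) → ∀ Bd : Finset (Pl K),
      (∀ l, l ∉ Bd → ∑ᶠ w ∈ {w : Pl E | Over w l ∧ nm w = nm l},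
        (ψ₀.χ w.asIdeal + ψ₁.χ w.asIdeal + ψ₂.χ w.asIdeal) = (g l : ℂ)) → ∀ Y : ℝ, 1 ≤ Y →
      |∑ s ∈ (prK K).SF Y, pd g s| ≤ C * C ^ Bd.card * (dd E * Ideal.absNorm 𝔣) ^ A * Y ^ (1 - δ) := by
  classical
  obtain ⟨C₁, A, δ, hC₁, hδ, hδ1, h1⟩ := hics
  obtain ⟨C₂, c, hC₂, hc, h2⟩ := cmp (prK K) (n + n + n)
  obtain ⟨C₃, A₃, hC₃, h3⟩ := hyp3 δ hδ hδ1
  obtain ⟨E₀, hE₀, h4⟩ := idG_cnt n hn (δ / 64) (by linarith)
  refine ⟨max (C₂ * C₃ * (E₀ * C₁) ^ A₃) c, A * A₃, δ / 16, le_trans hc (le_max_right _ _), by linarith, by linarith, ?_⟩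
  intro E _ _ _ hE 𝔣 h𝔣 ψ₀ ψ₁ ψ₂ hψ₀ hψ₁ hψ₂ g hg Bd hBd Y hY
  have hdd : 1 ≤ dd E := one_le_dd E
  have hN : (1 : ℝ) ≤ Ideal.absNorm 𝔣 := by
    have h : Ideal.absNorm 𝔣 ≠ 0 := fun h => h𝔣 (Ideal.absNorm_eq_zero_iff.1 h)
    exact_mod_cast Nat.one_le_iff_ne_zero.2 h
  set D : ℝ := C₁ * (dd E * Ideal.absNorm 𝔣) ^ A with hD
  have hD1 : 1 ≤ D := one_le_mul_of_one_le_of_one_le hC₁ (one_le_pow₀ (one_le_mul_of_one_le_of_one_le hdd hN))
  have hW : ∀ ψ : RC E 𝔣, ψ.Non → ∀ M : ℝ, 1 ≤ M → ‖(idG E).W (rch ψ) M‖ ≤ D * M ^ (1 - δ) := by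
    intro ψ hψ M hM
    rw [idG_W ψ M (by linarith)]
    exact h1 E hE 𝔣 h𝔣 ψ hψ M hM
  have h5 := h3 (Ideal (𝓞 E))⁰ (Pl E) (idG E) (rch ψ₀) (rch ψ₁) (rch ψ₂) E₀ D hE₀ hD1 (rch_norm ψ₀) (rch_norm ψ₁)
    (rch_norm ψ₂) (h4 E hE.2) (hW ψ₀ hψ₀) (hW ψ₁ hψ₁) (hW ψ₂ hψ₂)
  set u : (Pl E ⊕ Pl E) ⊕ Pl E → Pl K := Sum.elim (Sum.elim (bel K) (bel K)) (bel K) with hu
  set f : (Pl E ⊕ Pl E) ⊕ Pl E → ℕ := Sum.elim (Sum.elim (rdg K) (rdg K)) (rdg K) with hf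
  have hfib : ∀ S : Set (Pl E), S.Finite → ∀ T : Set ((Pl E ⊕ Pl E) ⊕ Pl E),
      T = (Sum.inl '' (Sum.inl '' S)) ∪ (Sum.inl '' (Sum.inr '' S)) ∪ (Sum.inr '' S) →
      T.Finite ∧ T.ncard ≤ S.ncard + S.ncard + S.ncard := by
    intro S hS T hT
    have ha : (Sum.inl '' (Sum.inl '' S) : Set ((Pl E ⊕ Pl E) ⊕ Pl E)).ncard ≤ S.ncard :=
      (Set.ncard_image_le (hS.image _)).trans (Set.ncard_image_le hS)
    have hb : (Sum.inl '' (Sum.inr '' S) : Set ((Pl E ⊕ Pl E) ⊕ Pl E)).ncard ≤ S.ncard :=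
      (Set.ncard_image_le (hS.image _)).trans (Set.ncard_image_le hS)
    have hc' : (Sum.inr '' S : Set ((Pl E ⊕ Pl E) ⊕ Pl E)).ncard ≤ S.ncard := Set.ncard_image_le hS
    have hd := Set.ncard_union_le (Sum.inl '' (Sum.inl '' S) : Set ((Pl E ⊕ Pl E) ⊕ Pl E)) (Sum.inl '' (Sum.inr '' S))
    have he := Set.ncard_union_le ((Sum.inl '' (Sum.inl '' S) : Set ((Pl E ⊕ Pl E) ⊕ Pl E)) ∪ (Sum.inl '' (Sum.inr '' S)))
      (Sum.inr '' S)
    rw [hT]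
    refine ⟨(((hS.image _).image _).union ((hS.image _).image _)).union (hS.image _), ?_⟩
    omega
  have hset : ∀ (P : Pl E → Prop) (Q : (Pl E ⊕ Pl E) ⊕ Pl E → Prop), (∀ w, Q (Sum.inl (Sum.inl w)) ↔ P w) →
      (∀ w, Q (Sum.inl (Sum.inr w)) ↔ P w) → (∀ w, Q (Sum.inr w) ↔ P w) →
      {q | Q q} = (Sum.inl '' (Sum.inl '' {w | P w})) ∪ (Sum.inl '' (Sum.inr '' {w | P w})) ∪ (Sum.inr '' {w | P w}) := by
    intro P Q h1 h2 h3
    ext q
    rcases q with (w | w) | w <;> simp [h1, h2, h3]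
  have h6 := h2 (((Ideal (𝓞 E))⁰ × (Ideal (𝓞 E))⁰) × (Ideal (𝓞 E))⁰) ((Pl E ⊕ Pl E) ⊕ Pl E)
    (((idG E).prod (idG E)).prod (idG E)) (pch (pch (rch ψ₀) (rch ψ₁)) (rch ψ₂)) ?_ u f ?_ ?_ ?_ g hg Bd ?_
    (C₃ * (E₀ * D) ^ A₃) (δ / 16) (by linarith) (by linarith) h5 Y hY
  · refine h6.trans ?_
    have h7 : 0 ≤ Y ^ (1 - δ / 16) := Real.rpow_nonneg (by linarith) _
    have h8 : C₂ * c ^ Bd.card * (C₃ * (E₀ * D) ^ A₃) =
        (C₂ * C₃ * (E₀ * C₁) ^ A₃) * c ^ Bd.card * (dd E * Ideal.absNorm 𝔣) ^ (A * A₃) := by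
      rw [hD, pow_mul]
      ring
    rw [h8]
    have h9 : (C₂ * C₃ * (E₀ * C₁) ^ A₃) * c ^ Bd.card ≤
        max (C₂ * C₃ * (E₀ * C₁) ^ A₃) c * max (C₂ * C₃ * (E₀ * C₁) ^ A₃) c ^ Bd.card :=
      mul_le_mul (le_max_left _ _) (pow_le_pow_left₀ (by linarith) (le_max_right _ _) _) (by positivity)
        (le_trans (by linarith) (le_max_right _ _))
    exact mul_le_mul_of_nonneg_right (mul_le_mul_of_nonneg_right h9 (by positivity)) h7
  · rintro ⟨⟨I, J⟩, L⟩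
    rw [pch_apply, pch_apply, norm_mul, norm_mul]
    have ha := rch_norm ψ₀ I
    have hb := rch_norm ψ₁ J
    have hc' := rch_norm ψ₂ L
    exact mul_le_one₀ (mul_le_one₀ ha (norm_nonneg _) hb) (norm_nonneg _) hc'
  · rintro ((w | w) | w) <;> exact (rdg_spec w).1
  · rintro ((w | w) | w)
    · have h : (((idG E).prod (idG E)).prod (idG E)).N ((((idG E).prod (idG E)).prod (idG E)).pr (Sum.inl (Sum.inl w))) =
          (idG E).N ((idG E).pr w) * (idG E).N 1 * (idG E).N 1 := rfl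
      rw [h, map_one, mul_one, mul_one, prK_N, idG_Npr]
      exact (rdg_spec w).2
    · have h : (((idG E).prod (idG E)).prod (idG E)).N ((((idG E).prod (idG E)).prod (idG E)).pr (Sum.inl (Sum.inr w))) =
          (idG E).N 1 * (idG E).N ((idG E).pr w) * (idG E).N 1 := rfl
      rw [h, map_one, mul_one, one_mul, prK_N, idG_Npr]
      exact (rdg_spec w).2
    · have h : (((idG E).prod (idG E)).prod (idG E)).N ((((idG E).prod (idG E)).prod (idG E)).pr (Sum.inr w)) =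
          (idG E).N 1 * (idG E).N 1 * (idG E).N ((idG E).pr w) := rfl
      rw [h, map_one, one_mul, one_mul, prK_N, idG_Npr]
      exact (rdg_spec w).2
  · intro l
    have hb := bel_card (K := K) (E := E) l
    rw [hE.2] at hb
    have hq := hfib {w : Pl E | bel K w = l} hb.1 {q | u q = l}
      (hset (fun w => bel K w = l) (fun q => u q = l) (fun _ => Iff.rfl) (fun _ => Iff.rfl) (fun _ => Iff.rfl))
    exact ⟨hq.1, by omega⟩
  · intro l hl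
    have hb := (bel_card (K := K) (E := E) l).1
    have hSf : {w : Pl E | Over w l ∧ nm w = nm l}.Finite := by
      rw [← bel_set]
      exact hb.subset fun w hw => hw.1
    have hq := hset (fun w => Over w l ∧ nm w = nm l) (fun q => u q = l ∧ f q = 1)
      (fun w => Set.ext_iff.1 (bel_set (K := K) (E := E) l) w) (fun w => Set.ext_iff.1 (bel_set (K := K) (E := E) l) w)
      (fun w => Set.ext_iff.1 (bel_set (K := K) (E := E) l) w)
    rw [hq, ← hBd l hl]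
    have hd1 : Disjoint ((Sum.inl '' (Sum.inl '' {w : Pl E | Over w l ∧ nm w = nm l}) : Set ((Pl E ⊕ Pl E) ⊕ Pl E)) ∪
        (Sum.inl '' (Sum.inr '' {w : Pl E | Over w l ∧ nm w = nm l}))) (Sum.inr '' {w : Pl E | Over w l ∧ nm w = nm l}) := by
      rw [Set.disjoint_left]
      rintro q (⟨_, _, rfl⟩ | ⟨_, _, rfl⟩) ⟨_, _, h⟩ <;> simp at h
    have hd2 : Disjoint (Sum.inl '' (Sum.inl '' {w : Pl E | Over w l ∧ nm w = nm l}) : Set ((Pl E ⊕ Pl E) ⊕ Pl E))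
        (Sum.inl '' (Sum.inr '' {w : Pl E | Over w l ∧ nm w = nm l})) := by
      rw [Set.disjoint_left]
      rintro q ⟨_, ⟨_, _, rfl⟩, rfl⟩ ⟨_, ⟨_, _, rfl⟩, h⟩
      simp at h
    rw [finsum_mem_union hd1 (((hSf.image _).image _).union ((hSf.image _).image _)) (hSf.image _),
      finsum_mem_union hd2 ((hSf.image _).image _) ((hSf.image _).image _),
      finsum_mem_image Sum.inr_injective.injOn, finsum_mem_image Sum.inl_injective.injOn,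
      finsum_mem_image Sum.inl_injective.injOn, finsum_mem_image Sum.inl_injective.injOn,
      finsum_mem_image Sum.inr_injective.injOn, finsum_mem_add_distrib hSf, finsum_mem_add_distrib hSf]
    congr 1
    · congr 1
      · refine finsum_mem_congr rfl fun w _ => ?_
        show rch ψ₀ ((idG E).pr w) * rch ψ₁ 1 * rch ψ₂ 1 = _
        rw [map_one, map_one, mul_one, mul_one]
        rfl
      · refine finsum_mem_congr rfl fun w _ => ?_
        show rch ψ₀ 1 * rch ψ₁ ((idG E).pr w) * rch ψ₂ 1 = _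
        rw [map_one, map_one, mul_one, one_mul]
        rfl
    · refine finsum_mem_congr rfl fun w _ => ?_
      show rch ψ₀ 1 * rch ψ₁ 1 * rch ψ₂ ((idG E).pr w) = _
      rw [map_one, map_one, one_mul, one_mul]
      rfl

end H57.LC
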