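import Pool.Agent.H57.LC.Gm

/-!
# [H57 LC REC] The recursions of the mixed sum (80-130 lines)

`U_zero`: `T = ∅` (only `s = ∅`, `nn ∅ = 1`), `S = ∅`. `U_S`: for every `s`: the `I` with `N I ≤ x := M / nn s`, not divisible by the primes of `S` = those which are not divisible by
`pr q` either + those of the form `pr q * J`, `N J ≤ x / N (pr q)`, `J` not divisible by the primes of `S` (`G.canc`: injective;
`G.dvd`: `pr q' ∣ pr q * J ↔ pr q' ∣ J` for `q' ≠ q`); `x / N (pr q) = (M / N (pr q)) / nn s`. `U_T`: subsets of `insert l T` = subsets of `T` and `insert l s`,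
`nn (insert l s) = N l * nn s` (`Finset.sum_powerset_insert`, `Finset.prod_insert`). `U_end`: if every prime of norm at most `M` is in `S`, the
only `I` with `N I ≤ M / nn s ≤ M` not divisible by the primes of `S` is `1` (`G.ex`: a prime `pr q ∣ I` has `N (pr q) ≤ N I ≤ M`), and it occurs
iff `1 ≤ M / nn s`.
-/

set_option autoImplicit false

noncomputable section

namespace H57.LC

open H57.LI

variable {𝓘 π ι : Type} [CommMonoid 𝓘] (G : GM 𝓘 π) (p : Pr ι) (g : ι → ℂ) (ψ : 𝓘 →* ℂ)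

theorem U_zero (M : ℝ) : G.U p g ψ ∅ ∅ M = G.W ψ M := by
  classical
  unfold GM.U GM.W
  rw [Finset.powerset_empty, Finset.sum_singleton]
  have h1 : p.nn ∅ = 1 := by
    unfold Pr.nn
    rw [Finset.prod_empty]
  rw [h1, div_one, Finset.filter_true_of_mem (fun I _ q hq => absurd hq (Finset.notMem_empty q))]
  refine Finset.sum_congr rfl fun I _ => ?_
  rw [Finset.prod_empty, one_mul]

private theorem rec_N_pos (I : 𝓘) : (0 : ℝ) < G.N I := by
  have h := G.pos I
  exact_mod_cast (by omega : 0 < G.N I)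

open Classical in
private theorem rec_key (S : Finset π) (q : π) (hq : q ∉ S) (x : ℝ) :
    ∑ I ∈ (G.B x).filter (fun I => ∀ q' ∈ S, ¬ G.pr q' ∣ I), ψ I =
      ∑ I ∈ (G.B x).filter (fun I => ∀ q' ∈ insert q S, ¬ G.pr q' ∣ I), ψ I +
      ψ (G.pr q) * ∑ I ∈ (G.B (x / G.N (G.pr q))).filter (fun I => ∀ q' ∈ S, ¬ G.pr q' ∣ I), ψ I := by
  have hN : (0 : ℝ) < G.N (G.pr q) := rec_N_pos G _
  rw [← Finset.sum_filter_add_sum_filter_not ((G.B x).filter (fun I => ∀ q' ∈ S, ¬ G.pr q' ∣ I))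
    (fun I => ¬ G.pr q ∣ I) (fun I => ψ I)]
  congr 1
  · refine Finset.sum_congr ?_ fun _ _ => rfl
    ext I
    simp only [Finset.mem_filter, Finset.mem_insert, forall_eq_or_imp]
    tauto
  · have himg : ((G.B x).filter (fun I => ∀ q' ∈ S, ¬ G.pr q' ∣ I)).filter (fun I => ¬ ¬ G.pr q ∣ I) =
        ((G.B (x / G.N (G.pr q))).filter (fun I => ∀ q' ∈ S, ¬ G.pr q' ∣ I)).image (fun J => G.pr q * J) := by
      ext I
      simp only [Finset.mem_filter, Finset.mem_image, not_not, G.mem_B]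
      constructor
      · rintro ⟨⟨h1, h2⟩, J, rfl⟩
        refine ⟨J, ⟨?_, fun q' hq' h => h2 q' hq' (Dvd.dvd.mul_left h _)⟩, rfl⟩
        rw [map_mul] at h1
        push_cast at h1
        rw [le_div_iff₀ hN, mul_comm]
        exact h1
      · rintro ⟨J, ⟨h1, h2⟩, rfl⟩
        refine ⟨⟨?_, fun q' hq' h => h2 q' hq' (G.dvd q' q J (fun e => hq (e ▸ hq')) h)⟩, Dvd.intro _ rfl⟩
        rw [map_mul]
        push_cast
        rw [le_div_iff₀ hN, mul_comm] at h1
        exact h1
    rw [himg, Finset.sum_image (fun I _ J _ h => G.canc q I J h), Finset.mul_sum]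
    refine Finset.sum_congr rfl fun J _ => ?_
    rw [map_mul]

open Classical in
theorem U_S (T : Finset ι) (S : Finset π) (q : π) (hq : q ∉ S) (M : ℝ) :
    G.U p g ψ T (insert q S) M = G.U p g ψ T S M - ψ (G.pr q) * G.U p g ψ T S (M / G.N (G.pr q)) := by
  rw [eq_sub_iff_add_eq]
  unfold GM.U
  rw [Finset.mul_sum, ← Finset.sum_add_distrib]
  refine Finset.sum_congr rfl fun s _ => ?_
  rw [← Finset.mul_sum, ← Finset.mul_sum, ← Finset.mul_sum]
  have h := rec_key G ψ S q hq (M / p.nn s)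
  have e : M / p.nn s / (G.N (G.pr q) : ℝ) = M / (G.N (G.pr q) : ℝ) / p.nn s := div_right_comm _ _ _
  rw [e] at h
  have h' : (∏ i ∈ s, g i) * ∑ I ∈ (G.B (M / p.nn s)).filter (fun I => ∀ q' ∈ S, ¬ G.pr q' ∣ I), ψ I =
      (∏ i ∈ s, g i) * ∑ I ∈ (G.B (M / p.nn s)).filter (fun I => ∀ q' ∈ insert q S, ¬ G.pr q' ∣ I), ψ I +
      ψ (G.pr q) * ((∏ i ∈ s, g i) *
        ∑ I ∈ (G.B (M / (G.N (G.pr q) : ℝ) / p.nn s)).filter (fun I => ∀ q' ∈ S, ¬ G.pr q' ∣ I), ψ I) := by
    rw [h]
    ring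
  exact h'.symm

open Classical in
theorem U_T (T : Finset ι) (S : Finset π) (l : ι) (hl : l ∉ T) (M : ℝ) :
    G.U p g ψ (insert l T) S M = G.U p g ψ T S M + g l * G.U p g ψ T S (M / p.N l) := by
  unfold GM.U
  rw [Finset.sum_powerset_insert hl, Finset.mul_sum]
  congr 1
  refine Finset.sum_congr rfl fun s hs => ?_
  have hls : l ∉ s := fun h => hl (Finset.mem_powerset.1 hs h)
  have e : M / p.nn (insert l s) = M / (p.N l : ℝ) / p.nn s := by
    unfold Pr.nn
    rw [Finset.prod_insert hls, div_div]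
  rw [e, Finset.prod_insert hls, Finset.mul_sum]
  refine Finset.sum_congr rfl fun I _ => ?_
  ring

open Classical in
theorem U_end (T : Finset ι) (S : Finset π) (M : ℝ) (hS : ∀ q, (G.N (G.pr q) : ℝ) ≤ M → q ∈ S) :
    G.U p g ψ T S M = ∑ s ∈ T.powerset.filter (fun s => p.nn s ≤ M), ∏ i ∈ s, g i := by
  unfold GM.U
  rw [Finset.sum_filter]
  refine Finset.sum_congr rfl fun s _ => ?_
  have hs1 := p.one_le_nn s
  have hs0 := p.nn_pos s
  by_cases h : p.nn s ≤ M
  · rw [if_pos h]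
    have hf : (G.B (M / p.nn s)).filter (fun I => ∀ q ∈ S, ¬ G.pr q ∣ I) = {1} := by
      ext I
      rw [Finset.mem_filter, G.mem_B, Finset.mem_singleton]
      constructor
      · rintro ⟨h1, h2⟩
        by_contra hI
        obtain ⟨q, hq⟩ := G.ex I hI
        refine h2 q (hS q ?_) hq
        have h3 : G.N (G.pr q) ∣ G.N I := map_dvd G.N hq
        have h4 : (G.N (G.pr q) : ℝ) ≤ G.N I := by
          exact_mod_cast Nat.le_of_dvd (by have := G.pos I; omega) h3
        have h5 : M / p.nn s ≤ M := div_le_self (by linarith) hs1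
        linarith
      · rintro rfl
        refine ⟨?_, fun q _ hq => ?_⟩
        · rw [map_one, Nat.cast_one, le_div_iff₀ hs0, one_mul]
          exact h
        · have h3 : G.N (G.pr q) ∣ G.N 1 := map_dvd G.N hq
          rw [map_one, Nat.dvd_one] at h3
          have h4 := G.two q
          omega
    rw [hf, Finset.sum_singleton, map_one, mul_one]
  · rw [if_neg h]
    refine Finset.sum_eq_zero fun I hI => ?_
    rw [Finset.mem_filter, G.mem_B] at hI
    exfalso
    apply h
    have h1 : (1 : ℝ) ≤ G.N I := by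
      exact_mod_cast G.pos I
    have h2 := h1.trans hI.1
    rw [le_div_iff₀ hs0, one_mul] at h2
    exact h2

end H57.LC
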