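import Pool.Agent.H57.LI.Abs

/-!
# H57/LC/Gm: monoids of ideals with norms (abstract), operators `τ_N`

`GM 𝓘 π`: a cancellative monoid `𝓘` (nonzero ideals) with primes `pr : π → 𝓘` and a norm. `G.W ψ M`: the sum of `ψ I` over the `I`
with `N I ≤ M`. `G.U g ψ T S M`: the sum of `g(s) ψ(I)` over the pairs (`s` a subset of the finite set `T` of primes of the base,
`I` not divisible by the primes in `S`) with `nn s * N I ≤ M`.
-/

set_option autoImplicit false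

noncomputable section

namespace H57.LC

open H57.LI

/-- a monoid with primes and norms -/
structure GM (𝓘 π : Type) [CommMonoid 𝓘] where
  /-- the norm -/
  N : 𝓘 →* ℕ
  /-- the primes -/
  pr : π → 𝓘
  fin : ∀ m, {I | N I = m}.Finite
  two : ∀ p, 2 ≤ N (pr p)
  pos : ∀ I, 1 ≤ N I
  canc : ∀ p I J, pr p * I = pr p * J → I = J
  dvd : ∀ p q I, p ≠ q → pr p ∣ pr q * I → pr p ∣ I
  ex : ∀ I, I ≠ 1 → ∃ p, pr p ∣ I

variable {𝓘 π : Type} [CommMonoid 𝓘] (G : GM 𝓘 π)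

theorem GM.finB (x : ℝ) : {I | (G.N I : ℝ) ≤ x}.Finite := by
  have h : {I | (G.N I : ℝ) ≤ x} ⊆ ⋃ m ∈ Finset.range (⌊x⌋₊ + 1), {I | G.N I = m} := by
    intro I hI
    have h1 : G.N I ≤ ⌊x⌋₊ := Nat.le_floor hI
    simp only [Set.mem_iUnion, Finset.mem_range, Set.mem_setOf_eq]
    exact ⟨G.N I, by omega, rfl⟩
  exact (Set.Finite.biUnion (Finset.finite_toSet _) fun m _ => G.fin m).subset h

/-- the elements of norm at most `x` -/
def GM.B (x : ℝ) : Finset 𝓘 := (G.finB x).toFinset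

theorem GM.mem_B {x : ℝ} {I : 𝓘} : I ∈ G.B x ↔ (G.N I : ℝ) ≤ x := by
  unfold GM.B
  rw [Set.Finite.mem_toFinset]
  rfl

/-- the sum over the elements of norm at most `M` -/
def GM.W (ψ : 𝓘 →* ℂ) (M : ℝ) : ℂ := ∑ I ∈ G.B M, ψ I

open Classical in
/-- the mixed sum -/
def GM.U {ι : Type} (p : Pr ι) (g : ι → ℂ) (ψ : 𝓘 →* ℂ) (T : Finset ι) (S : Finset π) (M : ℝ) : ℂ :=
  ∑ s ∈ T.powerset, ∑ I ∈ (G.B (M / p.nn s)).filter (fun I => ∀ q ∈ S, ¬ G.pr q ∣ I), (∏ i ∈ s, g i) * ψ I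

/-- `(τ_N f)(M) = f (M / N)` -/
def tau (N : ℝ) : (ℝ → ℂ) →ₗ[ℂ] (ℝ → ℂ) where
  toFun f := fun M => f (M / N)
  map_add' _ _ := rfl
  map_smul' _ _ := rfl

theorem tau_apply (N : ℝ) (f : ℝ → ℂ) (M : ℝ) : tau N f M = f (M / N) := rfl

/-- the polynomial `p` in `τ_N` -/
def op (N : ℝ) (p : Polynomial ℂ) : (ℝ → ℂ) →ₗ[ℂ] (ℝ → ℂ) := Polynomial.aeval (tau N : Module.End ℂ (ℝ → ℂ)) p

end H57.LC
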