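import Pool.Agent.H57.LC.Gm

/-!
# [H57 LC OP] Polynomials in `τ_N` (60-100 lines, Mathlib only)

`op_mul`: `map_mul` of `Polynomial.aeval`. `op_lin`: `aeval` of `1 - C c * X ^ k`, `(tau N) ^ k f M = f (M / N ^ k)` by induction.
`l1 p = ∑ j ∈ p.support, ‖p.coeff j‖`; `l1_mul`: expand the product (`Polynomial.coeff_mul`, or write `p = ∑ monomials`, subadditivity and
`l1 (monomial * q) ≤ ..`). `op_good`, `op_bad`: `Polynomial.aeval_eq_sum_range` (or `aeval_def`/`sum_def`): `op N p f M = ∑_j coeff j * f (M / N^j)`,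
`‖f (M / N^j)‖ ≤ D (M / N^j)^σ = (N^σ)^(-j) D M^σ` (`M / N^j > 0`, `N ≥ 2`, `σ ≥ 0`, `D ≥ 0` follows from `hf` at `M = 1`); `j = 0` gives `1`, `j = 1` gives `0`,
and `(N^j)^(-σ) ≤ N^(-2σ)` for `j ≥ 2`.
-/

set_option autoImplicit false

noncomputable section

namespace H57.LC

open Polynomial

theorem op_mul (N : ℝ) (p q : ℂ[X]) (f : ℝ → ℂ) : op N (p * q) f = op N p (op N q f) := by
  unfold op
  rw [map_mul]
  rfl

theorem op_one (N : ℝ) (f : ℝ → ℂ) : op N 1 f = f := by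
  unfold op
  rw [map_one]
  rfl

private theorem op_tau_pow (N : ℝ) (k : ℕ) (f : ℝ → ℂ) (M : ℝ) :
    ((tau N : Module.End ℂ (ℝ → ℂ)) ^ k) f M = f (M / N ^ k) := by
  induction k generalizing M with
  | zero => simp
  | succ k ih =>
    rw [pow_succ', Module.End.mul_apply, tau_apply, ih, pow_succ', div_div]

theorem op_lin (N : ℝ) (c : ℂ) (k : ℕ) (f : ℝ → ℂ) (M : ℝ) : op N (1 - C c * X ^ k) f M = f M - c * f (M / N ^ k) := by
  unfold op
  rw [map_sub, map_one, map_mul, aeval_C, map_pow, aeval_X, LinearMap.sub_apply, Module.End.mul_apply, Pi.sub_apply,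
    Module.algebraMap_end_apply, Pi.smul_apply, op_tau_pow, smul_eq_mul]
  rfl

theorem op_add (N : ℝ) (c : ℂ) (f : ℝ → ℂ) (M : ℝ) : op N (1 + C c * X) f M = f M + c * f (M / N) := by
  unfold op
  rw [map_add, map_one, map_mul, aeval_C, aeval_X, LinearMap.add_apply, Module.End.mul_apply, Pi.add_apply,
    Module.algebraMap_end_apply, Pi.smul_apply, tau_apply, smul_eq_mul]
  rfl

/-- the sum of the absolute values of the coefficients -/
def l1 (p : ℂ[X]) : ℝ := ∑ j ∈ p.support, ‖p.coeff j‖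

private theorem op_l1_eq (p : ℂ[X]) (s : Finset ℕ) (h : p.support ⊆ s) : l1 p = ∑ j ∈ s, ‖p.coeff j‖ := by
  unfold l1
  refine Finset.sum_subset h fun j _ hj => ?_
  rw [notMem_support_iff.mp hj, norm_zero]

private theorem op_l1_monomial (c : ℂ) (k : ℕ) : l1 (monomial k c) ≤ ‖c‖ := by
  rw [op_l1_eq _ {k} (support_monomial_subset k c), Finset.sum_singleton, coeff_monomial_same]

theorem l1_one : l1 1 ≤ 1 := by
  have h := op_l1_monomial 1 0
  rw [norm_one] at h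
  exact h

theorem l1_add (p q : ℂ[X]) : l1 (p + q) ≤ l1 p + l1 q := by
  classical
  rw [op_l1_eq (p + q) (p.support ∪ q.support) support_add, op_l1_eq p (p.support ∪ q.support) Finset.subset_union_left,
    op_l1_eq q (p.support ∪ q.support) Finset.subset_union_right, ← Finset.sum_add_distrib]
  refine Finset.sum_le_sum fun j _ => ?_
  rw [coeff_add]
  exact norm_add_le _ _

private theorem op_l1_zero : l1 0 = 0 := by
  unfold l1
  simp

private theorem op_l1_sum {ι : Type} (s : Finset ι) (f : ι → ℂ[X]) : l1 (∑ i ∈ s, f i) ≤ ∑ i ∈ s, l1 (f i) := by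
  classical
  induction s using Finset.induction_on with
  | empty => rw [Finset.sum_empty, Finset.sum_empty, op_l1_zero]
  | insert a s ha ih =>
    rw [Finset.sum_insert ha, Finset.sum_insert ha]
    exact (l1_add _ _).trans (by linarith)

theorem l1_mul (p q : ℂ[X]) : l1 (p * q) ≤ l1 p * l1 q := by
  rw [mul_eq_sum_sum]
  refine (op_l1_sum _ _).trans ?_
  have e : l1 p * l1 q = ∑ i ∈ p.support, ‖p.coeff i‖ * l1 q := by
    rw [← Finset.sum_mul]
    rfl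
  rw [e]
  refine Finset.sum_le_sum fun i _ => ?_
  rw [sum_def]
  refine (op_l1_sum _ _).trans ?_
  have e2 : ‖p.coeff i‖ * l1 q = ∑ j ∈ q.support, ‖p.coeff i‖ * ‖q.coeff j‖ := by
    rw [← Finset.mul_sum]
    rfl
  rw [e2]
  refine Finset.sum_le_sum fun j _ => ?_
  refine (op_l1_monomial _ _).trans ?_
  rw [norm_mul]

theorem l1_mon (c : ℂ) (k : ℕ) : l1 (C c * X ^ k) ≤ ‖c‖ := by
  rw [C_mul_X_pow_eq_monomial]
  exact op_l1_monomial c k

private theorem op_apply_sum (N : ℝ) (p : ℂ[X]) (f : ℝ → ℂ) (M : ℝ) :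
    op N p f M = ∑ j ∈ p.support, p.coeff j * f (M / N ^ j) := by
  unfold op
  rw [aeval_def, eval₂_eq_sum, sum_def, LinearMap.sum_apply, Finset.sum_apply]
  refine Finset.sum_congr rfl fun j _ => ?_
  rw [Module.End.mul_apply, Module.algebraMap_end_apply, Pi.smul_apply, op_tau_pow, smul_eq_mul]

private theorem op_term (N : ℝ) (hN : 2 ≤ N) (f : ℝ → ℂ) (D σ : ℝ) (hf : ∀ M : ℝ, 0 < M → ‖f M‖ ≤ D * M ^ σ)
    (M : ℝ) (hM : 0 < M) (j : ℕ) : ‖f (M / N ^ j)‖ ≤ (N ^ (-σ)) ^ j * (D * M ^ σ) := by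
  have hN0 : 0 < N := by linarith
  refine (hf _ (by positivity)).trans (le_of_eq ?_)
  rw [Real.div_rpow hM.le (by positivity), ← Real.rpow_natCast N j, ← Real.rpow_mul hN0.le, ← Real.rpow_natCast (N ^ (-σ)) j,
    ← Real.rpow_mul hN0.le, div_eq_mul_inv, ← Real.rpow_neg hN0.le]
  have e : -((j : ℝ) * σ) = -σ * (j : ℝ) := by ring
  rw [e]
  ring

private theorem op_r1 (N : ℝ) (hN : 2 ≤ N) (σ : ℝ) (hσ : 0 ≤ σ) : N ^ (-σ) ≤ 1 :=
  Real.rpow_le_one_of_one_le_of_nonpos (by linarith) (by linarith)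

private theorem op_D (f : ℝ → ℂ) (D σ : ℝ) (hf : ∀ M : ℝ, 0 < M → ‖f M‖ ≤ D * M ^ σ) : 0 ≤ D := by
  have h := hf 1 one_pos
  rw [Real.one_rpow, mul_one] at h
  exact (norm_nonneg _).trans h

theorem op_bad (N : ℝ) (hN : 2 ≤ N) (p : ℂ[X]) (f : ℝ → ℂ) (D σ : ℝ) (hσ : 0 ≤ σ) (hf : ∀ M : ℝ, 0 < M → ‖f M‖ ≤ D * M ^ σ)
    (M : ℝ) (hM : 0 < M) : ‖op N p f M‖ ≤ l1 p * (D * M ^ σ) := by
  have hD := op_D f D σ hf
  rw [op_apply_sum]
  refine (norm_sum_le _ _).trans ?_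
  unfold l1
  rw [Finset.sum_mul]
  refine Finset.sum_le_sum fun j _ => ?_
  rw [norm_mul]
  refine mul_le_mul_of_nonneg_left ?_ (norm_nonneg _)
  refine (op_term N hN f D σ hf M hM j).trans ?_
  have h0 : 0 ≤ N ^ (-σ) := Real.rpow_nonneg (by linarith) _
  have h1 : (N ^ (-σ)) ^ j ≤ 1 := pow_le_one₀ h0 (op_r1 N hN σ hσ)
  have h2 : 0 ≤ D * M ^ σ := mul_nonneg hD (Real.rpow_nonneg hM.le _)
  calc (N ^ (-σ)) ^ j * (D * M ^ σ) ≤ 1 * (D * M ^ σ) := mul_le_mul_of_nonneg_right h1 h2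
    _ = D * M ^ σ := one_mul _

theorem op_good (N : ℝ) (hN : 2 ≤ N) (p : ℂ[X]) (h0 : p.coeff 0 = 1) (h1 : p.coeff 1 = 0) (f : ℝ → ℂ) (D σ : ℝ) (hσ : 0 ≤ σ)
    (hf : ∀ M : ℝ, 0 < M → ‖f M‖ ≤ D * M ^ σ) (M : ℝ) (hM : 0 < M) :
    ‖op N p f M‖ ≤ (1 + l1 p * N ^ (-2 * σ)) * (D * M ^ σ) := by
  classical
  have hD := op_D f D σ hf
  have hN0 : 0 < N := by linarith
  have hn0 : 0 ≤ N ^ (-σ) := Real.rpow_nonneg (by linarith) _
  have hr := op_r1 N hN σ hσ
  have hDM : 0 ≤ D * M ^ σ := mul_nonneg hD (Real.rpow_nonneg hM.le _)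
  have h0m : 0 ∈ p.support := by
    rw [mem_support_iff, h0]
    exact one_ne_zero
  have e2 : N ^ (-2 * σ) = (N ^ (-σ)) ^ 2 := by
    rw [← Real.rpow_natCast (N ^ (-σ)) 2, ← Real.rpow_mul hN0.le]
    congr 1
    push_cast
    ring
  rw [op_apply_sum, ← Finset.add_sum_erase _ _ h0m, h0, one_mul, pow_zero, div_one, e2]
  refine (norm_add_le _ _).trans ?_
  rw [add_mul, one_mul]
  refine add_le_add (hf M hM) ?_
  refine (norm_sum_le _ _).trans ?_
  have e3 : l1 p * (N ^ (-σ)) ^ 2 * (D * M ^ σ) = ∑ j ∈ p.support, ‖p.coeff j‖ * ((N ^ (-σ)) ^ 2 * (D * M ^ σ)) := by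
    rw [← Finset.sum_mul]
    unfold l1
    ring
  rw [e3]
  refine (Finset.sum_le_sum fun j hj => ?_).trans
    (Finset.sum_le_sum_of_subset_of_nonneg (Finset.erase_subset 0 p.support) fun j _ _ => by positivity)
  rw [norm_mul]
  have hj0 : j ≠ 0 := Finset.ne_of_mem_erase hj
  by_cases hj1 : j = 1
  · rw [hj1, h1, norm_zero, zero_mul, zero_mul]
  · refine mul_le_mul_of_nonneg_left ?_ (norm_nonneg _)
    refine (op_term N hN f D σ hf M hM j).trans ?_
    refine mul_le_mul_of_nonneg_right ?_ hDM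
    exact pow_le_pow_of_le_one hn0 hr (by omega)

end H57.LC
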