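import Pool.Agent.H57.LC.Gm

/-!
# [H57 LC PRD] The product of two monoids with norms (40-70 lines)

`fin`: if `N I * N J = m` then `N I ∣ m`: for `m = 0` the set is empty (`pos`), else `I` and `J` are in the finite sets `G.B m`, `G'.B m`. `dvd`, `ex`, `canc`: componentwise
(`Prod.mk_dvd_mk`, `Prod.ext_iff`). For `dvd` with `p`, `q` in different components: `(pr p, 1) ∣ (1, pr q) * (I, J) = (I, pr q * J)` gives `pr p ∣ I`.
-/

set_option autoImplicit false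

noncomputable section

namespace H57.LC

variable {𝓘 π 𝓘' π' : Type} [CommMonoid 𝓘] [CommMonoid 𝓘'] (G : GM 𝓘 π) (G' : GM 𝓘' π')

private theorem prd_fin (m : ℕ) :
    {I : 𝓘 × 𝓘' | ((G.N.comp (MonoidHom.fst 𝓘 𝓘')) * (G'.N.comp (MonoidHom.snd 𝓘 𝓘'))) I = m}.Finite := by
  refine ((Finset.finite_toSet (G.B m)).prod (Finset.finite_toSet (G'.B m))).subset ?_
  rintro ⟨I, J⟩ h
  have h1 : G.N I * G'.N J = m := h
  have h2 := G.pos I
  have h3 := G'.pos J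
  refine Set.mk_mem_prod ?_ ?_
  · rw [Finset.mem_coe, G.mem_B]
    have h4 : G.N I ≤ m := by nlinarith
    exact_mod_cast h4
  · rw [Finset.mem_coe, G'.mem_B]
    have h4 : G'.N J ≤ m := by nlinarith
    exact_mod_cast h4

/-- the product of two monoids with norms -/
def GM.prod : GM (𝓘 × 𝓘') (π ⊕ π') where
  N := (G.N.comp (MonoidHom.fst 𝓘 𝓘')) * (G'.N.comp (MonoidHom.snd 𝓘 𝓘'))
  pr := Sum.elim (fun q => (G.pr q, 1)) (fun q => (1, G'.pr q))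
  fin := prd_fin G G'
  two := by
    rintro (q | q)
    · show 2 ≤ G.N (G.pr q) * G'.N 1
      rw [map_one, mul_one]
      exact G.two q
    · show 2 ≤ G.N 1 * G'.N (G'.pr q)
      rw [map_one, one_mul]
      exact G'.two q
  pos := by
    rintro ⟨I, J⟩
    exact Nat.mul_le_mul (G.pos I) (G'.pos J)
  canc := by
    rintro (q | q) ⟨I, J⟩ ⟨I', J'⟩ h
    · obtain ⟨h1, h2⟩ := Prod.ext_iff.1 h
      have h3 : G.pr q * I = G.pr q * I' := h1
      have h4 : 1 * J = 1 * J' := h2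
      rw [one_mul, one_mul] at h4
      rw [G.canc q I I' h3, h4]
    · obtain ⟨h1, h2⟩ := Prod.ext_iff.1 h
      have h3 : 1 * I = 1 * I' := h1
      have h4 : G'.pr q * J = G'.pr q * J' := h2
      rw [one_mul, one_mul] at h3
      rw [G'.canc q J J' h4, h3]
  dvd := by
    rintro (p | p) (q | q) ⟨I, J⟩ hpq h
    · have h1 : (G.pr p, (1 : 𝓘')) ∣ (G.pr q * I, 1 * J) := h
      rw [Prod.mk_dvd_mk] at h1
      show (G.pr p, (1 : 𝓘')) ∣ (I, J)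
      rw [Prod.mk_dvd_mk]
      exact ⟨G.dvd p q I (fun h2 => hpq (by rw [h2])) h1.1, one_dvd J⟩
    · have h1 : (G.pr p, (1 : 𝓘')) ∣ (1 * I, G'.pr q * J) := h
      rw [Prod.mk_dvd_mk, one_mul] at h1
      show (G.pr p, (1 : 𝓘')) ∣ (I, J)
      rw [Prod.mk_dvd_mk]
      exact ⟨h1.1, one_dvd J⟩
    · have h1 : ((1 : 𝓘), G'.pr p) ∣ (G.pr q * I, 1 * J) := h
      rw [Prod.mk_dvd_mk, one_mul] at h1
      show ((1 : 𝓘), G'.pr p) ∣ (I, J)
      rw [Prod.mk_dvd_mk]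
      exact ⟨one_dvd I, h1.2⟩
    · have h1 : ((1 : 𝓘), G'.pr p) ∣ (1 * I, G'.pr q * J) := h
      rw [Prod.mk_dvd_mk] at h1
      show ((1 : 𝓘), G'.pr p) ∣ (I, J)
      rw [Prod.mk_dvd_mk]
      exact ⟨one_dvd I, G'.dvd p q J (fun h2 => hpq (by rw [h2])) h1.2⟩
  ex := by
    rintro ⟨I, J⟩ h
    by_cases hI : I = 1
    · have hJ : J ≠ 1 := by
        rintro rfl
        exact h (by rw [hI]; rfl)
      obtain ⟨p, hp⟩ := G'.ex J hJ
      refine ⟨Sum.inr p, ?_⟩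
      show ((1 : 𝓘), G'.pr p) ∣ (I, J)
      rw [Prod.mk_dvd_mk]
      exact ⟨one_dvd I, hp⟩
    · obtain ⟨p, hp⟩ := G.ex I hI
      refine ⟨Sum.inl p, ?_⟩
      show (G.pr p, (1 : 𝓘')) ∣ (I, J)
      rw [Prod.mk_dvd_mk]
      exact ⟨hp, one_dvd J⟩

/-- the product of two characters -/
def pch (ψ : 𝓘 →* ℂ) (ψ' : 𝓘' →* ℂ) : 𝓘 × 𝓘' →* ℂ := (ψ.comp (MonoidHom.fst 𝓘 𝓘')) * (ψ'.comp (MonoidHom.snd 𝓘 𝓘'))

theorem prod_N (I : 𝓘) (J : 𝓘') : (G.prod G').N (I, J) = G.N I * G'.N J := rfl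

theorem pch_apply (ψ : 𝓘 →* ℂ) (ψ' : 𝓘' →* ℂ) (I : 𝓘) (J : 𝓘') : pch ψ ψ' (I, J) = ψ I * ψ' J := rfl

end H57.LC
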